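import Pool.Agent.T2H27.ST.Comb

/-!
# The four blocks of variables
-/

set_option autoImplicit false

namespace Pool.Agent.T2H27.ST

open Finset

/-- two variables `x`, `y`: the monomials `x ^ (g k - j) y ^ j`, `j ∈ E k` -/
def M2 (E : ℕ → Set ℕ) (g k : ℕ) : Set (Fin 2 → ℕ) := {u | ∃ j ∈ E k, u 0 = g * k - j ∧ u 1 = j}

/-- the exponents of the block for the v-number, `v ≥ 2` -/
def EV (v k : ℕ) : Set ℕ := {x | ∃ l i : ℕ, l + i ≤ k ∧ x = 3 * l + (3 * v - 1) * i}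

/-- the exponents of the block for the regularity -/
def ER (r k : ℕ) : Set ℕ := {x | ∃ m i : ℕ, m ≤ k ∧ i ≤ k ∧ x = 2 * (m + i * (r + 1))}

/-- the block for the depth: variables `a_t = (t, false)`, `b_t = (t, true)`, monomials
`∏ a_t ^ (k - c_t) b_t ^ (2 c_t)` for `0 ≤ c_1 ≤ c_2 ≤ ⋯ ≤ c_d ≤ k` -/
def MD (d k : ℕ) : Set (Fin d ×ₗ Bool → ℕ) :=
  {u | ∃ c : Fin d → ℕ, Monotone c ∧ (∀ t, c t ≤ k) ∧ (∀ t, u (toLex (t, false)) = k - c t) ∧
    ∀ t, u (toLex (t, true)) = 2 * c t}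

/-- its associated primes `(a_i, b_j)`, `i ≤ j` -/
def AD (d : ℕ) : Set (Finset (Fin d ×ₗ Bool)) :=
  {F | ∃ i j : Fin d, i ≤ j ∧ F = {toLex (i, false), toLex (j, true)}}

/-- exponents of the `k`-th power of `(x_1 ⋯ x_n / x_i)_i (x_1, …, x_n, z)`, `n = a + 1` -/
def NA (a k : ℕ) : Set (Fin (a + 2) → ℕ) :=
  {w | ∑ s, w s = (a + 1) * k ∧ ∑ s : Fin (a + 1), (k - w s.castSucc) ≤ k}

/-- the block for the associated primes: the variables are replaced by their squares -/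
def MA (a k : ℕ) : Set (Fin (a + 2) → ℕ) := {u | ∃ w ∈ NA a k, u = fun s => 2 * w s}

/-- its associated primes -/
def AA (a k : ℕ) : Set (Finset (Fin (a + 2))) :=
  {F | F = univ ∨ (Fin.last (a + 1) ∉ F ∧ 2 ≤ F.card ∧ F.card ≤ k + 1)}

end Pool.Agent.T2H27.ST
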