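import Pool.Agent.T2H27.ST.Defs

/-!
# Monomial ideals through their sets of exponents
-/

set_option autoImplicit false

namespace Pool.Agent.T2H27.ST

open MvPolynomial Finset
open scoped Pointwise

section
variable {σ : Type}

/-- the up-set generated by `M` -/
def up (M : Set (σ → ℕ)) : Set (σ → ℕ) := {β | ∃ u ∈ M, u ≤ β}

/-- the monomial ideal with the generators of exponents in `M` -/
noncomputable def monI (K : Type) [Field K] (M : Set (σ → ℕ)) : Ideal (MvPolynomial σ K) :=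
  Ideal.span ((fun u : σ →₀ ℕ => monomial u (1 : K)) '' {u | (u : σ → ℕ) ∈ M})

variable [LinearOrder σ]

/-- `u'` comes before `u`: at the first variable where the exponents differ, `u'` is larger -/
def Bef (u' u : σ → ℕ) : Prop := ∃ j, (∀ i, i < j → u' i = u i) ∧ u j < u' j

/-- quotients by powers of variables: the colon ideal of the generators before `u` by `u` is
generated by the `x_t ^ (p u t)`, `t ∈ G u` -/
structure PPQ (M : Set (σ → ℕ)) (G : (σ → ℕ) → Finset σ) (p : (σ → ℕ) → σ → ℕ) : Prop where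
  one : ∀ u ∈ M, ∀ t ∈ G u, ∃ u' ∈ M, Bef u' u ∧ u' ≤ u + Pi.single t (p u t)
  two : ∀ u ∈ M, ∀ u' ∈ M, Bef u' u → ∃ t ∈ G u, u t + p u t ≤ u' t

/-- `F` is a face in the multidegree `α`: the monomial `x^α / x_F` is in the ideal -/
def Face (U : Set (σ → ℕ)) (α : σ → ℕ) (F : Finset σ) : Prop :=
  (∀ t ∈ F, 1 ≤ α t) ∧ (fun s => α s - if s ∈ F then 1 else 0) ∈ U

/-- `F` is the set of the variables of an associated prime, obtained from the monomial `w` -/
def AssF (U : Set (σ → ℕ)) (F : Finset σ) : Prop :=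
  ∃ w : σ → ℕ, w ∉ U ∧ (∀ t ∈ F, w + Pi.single t 1 ∈ U) ∧
    ∀ q : σ → ℕ, (∀ t ∈ F, q t = 0) → w + q ∉ U

variable [Fintype σ]

/-- the simplicial boundary, with coefficients in `K` -/
def bd {K : Type} [Field K] (c : Finset σ → K) (G : Finset σ) : K :=
  ∑ t ∈ Gᶜ, (-1) ^ (G.filter (· < t)).card * c (insert t G)

/-- a cycle of top dimension in the multidegree `α` -/
def Cert (K : Type) [Field K] (U : Set (σ → ℕ)) (α : σ → ℕ) (i : ℕ) : Prop :=
  ∃ c : Finset σ → K, (∃ F, c F ≠ 0) ∧ (∀ F, c F ≠ 0 → F.card = i ∧ Face U α F) ∧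
    (∀ G, bd c G = 0) ∧ ∀ F, Face U α F → F.card ≤ i

/-- no monomial of degree `D - 1` is multiplied into the ideal by a vertex cover -/
def NP (U : Set (σ → ℕ)) (D : ℕ) : Prop :=
  ∀ F : Finset σ, (∀ u ∈ U, ∃ t ∈ F, u t ≠ 0) → ∀ w : σ → ℕ, ∑ s, w s + 1 = D →
    ∃ t ∈ F, w + Pi.single t 1 ∉ U

/-- there is an associated prime coming from a monomial of degree `D - 1` -/
def YP (U : Set (σ → ℕ)) (D : ℕ) : Prop :=
  ∃ (w : σ → ℕ) (F : Finset σ), ∑ s, w s + 1 = D ∧ (∀ t ∈ F, w + Pi.single t 1 ∈ U) ∧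
    ∀ q : σ → ℕ, (∀ t ∈ F, q t = 0) → w + q ∉ U

/-- all that is used about the powers of a monomial ideal: `M k` are the exponents of the generators
of the `k`-th power, `D k` is its initial degree, `pd k` the projective dimension, `reg k` the
regularity, and `A k` the set of the associated primes -/
structure Blk (K : Type) [Field K] (M : ℕ → Set (σ → ℕ)) (D : ℕ) (pd reg : ℕ → ℕ)
    (A : ℕ → Set (Finset σ)) (nice : ℕ → Prop) : Prop where
  zero : M 0 = {0}
  succ : ∀ k, M (k + 1) = M k + M 1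
  ppq : ∀ k, 1 ≤ k → ∃ (G : (σ → ℕ) → Finset σ) (p : (σ → ℕ) → σ → ℕ), PPQ (M k) G p ∧
    ∀ u ∈ M k, (G u).card ≤ pd k ∧ ∑ s, u s + ∑ t ∈ G u, (p u t - 1) ≤ reg k
  cpd : ∀ k, 1 ≤ k → ∃ α, Cert K (up (M k)) α (pd k)
  creg : ∀ k, 1 ≤ k → ∃ i α, Cert K (up (M k)) α i ∧ ∑ s, α s = reg k + i
  deg : ∀ k, ∀ u ∈ M k, D * k ≤ ∑ s, u s
  att : ∀ k, ∃ u ∈ M k, ∑ s, u s = D * k
  pos : 1 ≤ D
  ass : ∀ k, 1 ≤ k → ∀ F, AssF (up (M k)) F ↔ F ∈ A k
  np : ∀ k, 1 ≤ k → nice k → NP (up (M k)) (D * k)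

end

theorem mem_monI {σ K : Type} [Field K] [Finite σ] (M : Set (σ → ℕ)) (f : MvPolynomial σ K) :
    f ∈ monI K M ↔ ∀ m ∈ f.support, (m : σ → ℕ) ∈ up M := by
  classical
  rw [monI, mem_ideal_span_monomial_image]
  refine forall₂_congr fun m _ => ?_
  constructor
  · rintro ⟨u, hu, hum⟩
    exact ⟨u, hu, hum⟩
  · rintro ⟨u, hu, hum⟩
    refine ⟨Finsupp.equivFunOnFinite.symm u, ?_, ?_⟩
    · simpa using hu
    · intro s
      simpa using hum s

theorem up_up {σ : Type} (M : Set (σ → ℕ)) {β β' : σ → ℕ} (h : β ∈ up M) (h' : β ≤ β') :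
    β' ∈ up M := by
  obtain ⟨u, hu, h1⟩ := h
  exact ⟨u, hu, h1.trans h'⟩

section prod
variable {σ τ : Type}

/-- the part of an exponent vector on the first set of variables -/
def fstP (u : σ ⊕ₗ τ → ℕ) (s : σ) : ℕ := u (toLex (Sum.inl s))

/-- the part of an exponent vector on the second set of variables -/
def sndP (u : σ ⊕ₗ τ → ℕ) (t : τ) : ℕ := u (toLex (Sum.inr t))

/-- products of monomials in disjoint sets of variables -/
def prodM (M : Set (σ → ℕ)) (N : Set (τ → ℕ)) : Set (σ ⊕ₗ τ → ℕ) := {u | fstP u ∈ M ∧ sndP u ∈ N}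

/-- the first set of variables -/
def leftE : σ ↪ σ ⊕ₗ τ := ⟨fun s => toLex (Sum.inl s), fun _ _ h => Sum.inl_injective (toLex.injective h)⟩

/-- the second set of variables -/
def rightE : τ ↪ σ ⊕ₗ τ := ⟨fun s => toLex (Sum.inr s), fun _ _ h => Sum.inr_injective (toLex.injective h)⟩

/-- associated primes of the product -/
def prodA (A : Set (Finset σ)) (B : Set (Finset τ)) : Set (Finset (σ ⊕ₗ τ)) :=
  {F | (∃ F₁ ∈ A, F = F₁.map leftE) ∨ ∃ F₂ ∈ B, F = F₂.map rightE}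

end prod

end Pool.Agent.T2H27.ST
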