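import Mathlib

/-!
# Stability indices of the powers of a graded ideal: definitions

`S = K[x_s : s ∈ σ]` is the polynomial ring in finitely many variables over a field `K`, the variables
being indexed by a finite linearly ordered set `σ`.
-/

set_option autoImplicit false

namespace Pool.Agent.T2H27.ST

open MvPolynomial

variable {σ : Type} [Fintype σ] [LinearOrder σ] {K : Type} [Field K]

/-- The differential of the Koszul complex of the sequence of all variables.  The family `c` stands for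
the chain `∑ c(F) e_F`, where `e_F` is the exterior product of the basis vectors `e_t`, `t ∈ F`; the
coefficient of its image at `e_G` is `∑_{t ∉ G} ± x_t c(G ∪ {t})`, and the sign is `(-1)^j` for the
number `j` of the elements of `G` less than `t`. -/
noncomputable def koszul (c : Finset σ → MvPolynomial σ K) (G : Finset σ) : MvPolynomial σ K :=
  ∑ t ∈ Gᶜ, (-1) ^ (G.filter (· < t)).card * (X t * c (insert t G))

/-- `Tor_i(J, K)` is not zero in degree `i + m`, for the ideal `J`: the `i`-th homology of the Koszul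
complex of the variables with coefficients in `J` is not zero in degree `i + m`.  So there is a
cycle `∑_{#F = i} c(F) e_F`, with `c(F) ∈ J` homogeneous of degree `m`, that is not a boundary. -/
def TorNonzero (J : Ideal (MvPolynomial σ K)) (i m : ℕ) : Prop :=
  ∃ c : Finset σ → MvPolynomial σ K,
    (∀ F, c F ∈ J ∧ (c F).IsHomogeneous m ∧ (F.card ≠ i → c F = 0)) ∧ (∀ G, koszul c G = 0) ∧
    ¬ ∃ b : Finset σ → MvPolynomial σ K,
      (∀ F, b F ∈ J ∧ (F.card ≠ i + 1 → b F = 0)) ∧ ∀ G, koszul b G = c G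

/-- The depth of the module `J` is `t`: the projective dimension is the largest `i` with
`Tor_i(J, K) ≠ 0`, and depth and projective dimension add up to the number of the variables
(Auslander-Buchsbaum). -/
def HasDepth (J : Ideal (MvPolynomial σ K)) (t : ℕ) : Prop :=
  ∃ p : ℕ, (∃ m, TorNonzero J p m) ∧ (∀ i m, TorNonzero J i m → i ≤ p) ∧ t + p = Fintype.card σ

/-- The Castelnuovo-Mumford regularity of `J` is `r`: it is the largest `j - i` with
`Tor_i(J, K)_j ≠ 0`. -/
def HasReg (J : Ideal (MvPolynomial σ K)) (r : ℕ) : Prop :=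
  (∃ i, TorNonzero J i r) ∧ ∀ i m, TorNonzero J i m → m ≤ r

/-- The set `Ass(J)` of the associated primes of `S / J`: the prime ideals of the form `(J : f)`. -/
def Ass (J : Ideal (MvPolynomial σ K)) : Set (Ideal (MvPolynomial σ K)) :=
  {P | P.IsPrime ∧ ∃ f, ∀ g, g ∈ P ↔ g * f ∈ J}

/-- The v-number of `J` is `w`: the least degree of a homogeneous polynomial `f` such that `(J : f)` is
a prime ideal. -/
def HasV (J : Ideal (MvPolynomial σ K)) (w : ℕ) : Prop :=
  IsLeast {m | ∃ P : Ideal (MvPolynomial σ K), P.IsPrime ∧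
    ∃ f : MvPolynomial σ K, f.IsHomogeneous m ∧ ∀ g, g ∈ P ↔ g * f ∈ J} w

/-- `α(J) = a`: the least degree of a nonzero homogeneous element of `J`. -/
def HasInit (J : Ideal (MvPolynomial σ K)) (a : ℕ) : Prop :=
  IsLeast {m | ∃ f ∈ J, f ≠ 0 ∧ f.IsHomogeneous m} a

/-- `astab(I) = a`. -/
def AstabEq (I : Ideal (MvPolynomial σ K)) (a : ℕ) : Prop :=
  IsLeast {t | 1 ≤ t ∧ ∀ k, t ≤ k → Ass (I ^ k) = Ass (I ^ t)} a

/-- `dstab(I) = d`. -/
def DstabEq (I : Ideal (MvPolynomial σ K)) (d : ℕ) : Prop :=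
  IsLeast {t | 1 ≤ t ∧ ∃ D, ∀ k, t ≤ k → HasDepth (I ^ k) D} d

/-- `rstab(I) = r`. -/
def RstabEq (I : Ideal (MvPolynomial σ K)) (r : ℕ) : Prop :=
  IsLeast {t | 1 ≤ t ∧ ∃ c e : ℤ, ∀ k : ℕ, t ≤ k → ∃ m : ℕ, HasReg (I ^ k) m ∧ (m : ℤ) = c * k + e} r

/-- `vstab(I) = v`. -/
def VstabEq (I : Ideal (MvPolynomial σ K)) (v : ℕ) : Prop :=
  ∃ a : ℕ, HasInit I a ∧
    IsLeast {t | 1 ≤ t ∧ ∃ b : ℤ, ∀ k : ℕ, t ≤ k → ∃ w : ℕ, HasV (I ^ k) w ∧ (w : ℤ) = a * k + b} v

end Pool.Agent.T2H27.ST
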